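import Mathlib

/-!
# Matchings in bipartite relations

Hall's theorem for subsets, the theorem of Mendelsohn and Dulmage (as a form of the theorem of
Schröder and Bernstein) and a partition in the manner of Dulmage and Mendelsohn.
-/

set_option autoImplicit false

namespace Pool.Agent.N410.TB

open Finset

open Classical in
/-- Hall's theorem for a subset `P`. -/
theorem hall {V : Type} [Fintype V] (E : V → V → Prop) (P : Finset V)
    (h : ∀ S ⊆ P, S.card ≤ (univ.filter (fun q => ∃ p ∈ S, E p q)).card) :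
    ∃ f : V → V, (∀ p ∈ P, E p (f p)) ∧ ∀ p ∈ P, ∀ p' ∈ P, f p = f p' → p = p' := by
  have hA : ∃ f : {x // x ∈ P} → V, Function.Injective f ∧
      ∀ x, f x ∈ univ.filter (fun y => E x.1 y) := by
    apply (Finset.all_card_le_biUnion_card_iff_exists_injective _).1
    intro S
    have h' := h (S.map (Function.Embedding.subtype _)) (by
      intro x hx
      rw [Finset.mem_map] at hx
      obtain ⟨a, _, rfl⟩ := hx
      exact a.2)
    rw [Finset.card_map] at h'
    refine le_trans h' (Finset.card_le_card ?_)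
    intro y hy
    rw [Finset.mem_filter] at hy
    obtain ⟨_, x, hx, hxy⟩ := hy
    rw [Finset.mem_map] at hx
    obtain ⟨a, ha, rfl⟩ := hx
    rw [Finset.mem_biUnion]
    exact ⟨a, ha, Finset.mem_filter.2 ⟨mem_univ _, hxy⟩⟩
  obtain ⟨f, hf1, hf2⟩ := hA
  refine ⟨fun x => if h : x ∈ P then f ⟨x, h⟩ else x, ?_, ?_⟩
  · intro p hp
    simp only
    rw [dif_pos hp]
    exact (mem_filter.1 (hf2 ⟨p, hp⟩)).2
  · intro p hp p' hp' heq
    simp only at heq
    rw [dif_pos hp, dif_pos hp'] at heq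
    exact congrArg Subtype.val (hf1 heq)

/-- The chains starting outside the range of `g`. -/
inductive Cl {V : Type} (P Q : V → Prop) (f g : V → V) : V → Prop
  | base (p : V) : P p → (∀ q, Q q → g q ≠ p) → Cl P Q f g p
  | step (p : V) : Cl P Q f g p → Q (f p) → P (g (f p)) → Cl P Q f g (g (f p))

/-- The theorem of Mendelsohn and Dulmage. -/
theorem md {V : Type} (E : V → V → Prop) (P Q : V → Prop) (f g : V → V)
    (hf : ∀ p, P p → E p (f p)) (hg : ∀ q, Q q → E (g q) q)
    (hfi : ∀ p p', P p → P p' → f p = f p' → p = p')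
    (hgi : ∀ q q', Q q → Q q' → g q = g q' → q = q') :
    ∃ N : V → V → Prop, (∀ p q, N p q → E p q) ∧ (∀ p q q', N p q → N p q' → q = q') ∧
      (∀ p p' q, N p q → N p' q → p = p') ∧ (∀ p, P p → ∃ q, N p q) ∧ ∀ q, Q q → ∃ p, N p q := by
  have hP : ∀ p, Cl P Q f g p → P p := by
    intro p hp
    cases hp with
    | base _ h _ => exact h
    | step _ _ _ h => exact h
  -- no chain vertex is the partner of a vertex that is not hit
  have key : ∀ p q, Cl P Q f g p → Q q → g q = p → ∃ p', Cl P Q f g p' ∧ f p' = q := by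
    intro p q hp hq hpq
    cases hp with
    | base _ _ h => exact absurd hpq (h q hq)
    | step p' h1 h2 h3 => exact ⟨p', h1, (hgi q (f p') hq h2 hpq).symm⟩
  refine ⟨fun p q => (Cl P Q f g p ∧ f p = q) ∨
    (Q q ∧ g q = p ∧ ¬ ∃ p', Cl P Q f g p' ∧ f p' = q), ?_, ?_, ?_, ?_, ?_⟩
  · rintro p q (⟨h1, rfl⟩ | ⟨h1, rfl, _⟩)
    · exact hf p (hP p h1)
    · exact hg q h1
  · rintro p q q' (⟨h1, h2⟩ | ⟨h1, h2, h3⟩) (⟨h4, h5⟩ | ⟨h4, h5, h6⟩)
    · exact h2.symm.trans h5
    · exact absurd (key p q' h1 h4 h5) h6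
    · exact absurd (key p q h4 h1 h2) h3
    · exact hgi q q' h1 h4 (h2.trans h5.symm)
  · rintro p p' q (⟨h1, h2⟩ | ⟨h1, h2, h3⟩) (⟨h4, h5⟩ | ⟨h4, h5, h6⟩)
    · exact hfi p p' (hP p h1) (hP p' h4) (h2.trans h5.symm)
    · exact absurd ⟨p, h1, h2⟩ h6
    · exact absurd ⟨p', h4, h5⟩ h3
    · exact h2.symm.trans h5
  · intro p hp
    by_cases hc : Cl P Q f g p
    · exact ⟨f p, Or.inl ⟨hc, rfl⟩⟩
    · have : ∃ q, Q q ∧ g q = p := by
        by_contra hcon
        push Not at hcon
        exact hc (Cl.base p hp hcon)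
      obtain ⟨q, hq, hqp⟩ := this
      refine ⟨q, Or.inr ⟨hq, hqp, ?_⟩⟩
      rintro ⟨p', hp', hp'q⟩
      subst hp'q
      subst hqp
      exact hc (Cl.step p' hp' hq hp)
  · intro q hq
    by_cases hc : ∃ p', Cl P Q f g p' ∧ f p' = q
    · obtain ⟨p', h1, h2⟩ := hc
      exact ⟨p', Or.inl ⟨h1, h2⟩⟩
    · exact ⟨g q, Or.inr ⟨hq, rfl, hc⟩⟩

open Classical in
/-- A matching that covers two given sets. -/
theorem both {V : Type} [Fintype V] (E : V → V → Prop) (P Q : Finset V)
    (h1 : ∀ S ⊆ P, S.card ≤ (univ.filter (fun q => ∃ p ∈ S, E p q)).card)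
    (h2 : ∀ S ⊆ Q, S.card ≤ (univ.filter (fun p => ∃ q ∈ S, E p q)).card) :
    ∃ N : V → V → Prop, (∀ p q, N p q → E p q) ∧ (∀ p q q', N p q → N p q' → q = q') ∧
      (∀ p p' q, N p q → N p' q → p = p') ∧ (∀ p ∈ P, ∃ q, N p q) ∧ ∀ q ∈ Q, ∃ p, N p q := by
  obtain ⟨f, hf1, hf2⟩ := hall E P h1
  obtain ⟨g, hg1, hg2⟩ := hall (fun q p => E p q) Q h2
  exact md E (fun p => p ∈ P) (fun q => q ∈ Q) f g hf1 hg1 (fun p p' hp hp' h => hf2 p hp p' hp' h)
    (fun q q' hq hq' h => hg2 q hq q' hq' h)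

open Classical in
/-- Hall's condition from degrees. -/
theorem degs {V : Type} [Fintype V] (E : V → V → Prop) (D : ℕ) (hD : 1 ≤ D) (S : Finset V)
    (h1 : ∀ p ∈ S, D ≤ (univ.filter (fun q => E p q)).card)
    (h2 : ∀ q, (univ.filter (fun p => E p q)).card ≤ D) :
    S.card ≤ (univ.filter (fun q => ∃ p ∈ S, E p q)).card := by
  set N := univ.filter (fun q => ∃ p ∈ S, E p q) with hN
  have e1 : S.card * D ≤ ∑ p ∈ S, (univ.filter (fun q => E p q)).card := by
    rw [← smul_eq_mul, ← Finset.sum_const]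
    exact Finset.sum_le_sum fun p hp => h1 p hp
  have e2 : ∑ p ∈ S, (univ.filter (fun q => E p q)).card ≤
      ∑ q ∈ N, (univ.filter (fun p => E p q)).card := by
    have e3 : ∀ p ∈ S, (univ.filter (fun q => E p q)).card = (N.filter (fun q => E p q)).card := by
      intro p hp
      congr 1
      ext q
      simp only [Finset.mem_filter, Finset.mem_univ, true_and, hN]
      exact ⟨fun h => ⟨⟨p, hp, h⟩, h⟩, fun h => h.2⟩
    rw [Finset.sum_congr rfl e3]
    simp_rw [Finset.card_filter]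
    rw [Finset.sum_comm]
    apply Finset.sum_le_sum
    intro q _
    rw [← Finset.card_filter, ← Finset.card_filter]
    exact card_le_card (filter_subset_filter _ (subset_univ _))
  have e4 : ∑ q ∈ N, (univ.filter (fun p => E p q)).card ≤ N.card * D := by
    rw [← smul_eq_mul, ← Finset.sum_const]
    exact Finset.sum_le_sum fun q _ => h2 q
  exact Nat.le_of_mul_le_mul_right (e1.trans (e2.trans e4)) hD

open Classical in
/-- A set `A1` that maximises `|A1| - |N(A1)|`. -/
theorem dm {V : Type} [Fintype V] (R : V → V → Prop) (A : Finset V) : ∃ A1 ⊆ A,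
    (∀ T : Finset V, (∀ b ∈ T, ∃ a ∈ A1, R a b) →
      T.card ≤ (univ.filter (fun a => a ∈ A1 ∧ ∃ b ∈ T, R a b)).card) ∧
    ∀ S ⊆ A, Disjoint A1 S →
      S.card ≤ (univ.filter (fun b => (¬ ∃ a ∈ A1, R a b) ∧ ∃ a ∈ S, R a b)).card := by
  obtain ⟨A1, hA1, hmax⟩ := Finset.exists_max_image A.powerset
    (fun A1 => A1.card + (univ.filter (fun b => ¬ ∃ a ∈ A1, R a b)).card) ⟨∅, by simp⟩
  rw [mem_powerset] at hA1
  refine ⟨A1, hA1, ?_, ?_⟩
  · intro T hT
    have h1 := hmax (A1.filter (fun a => ¬ ∃ b ∈ T, R a b))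
      (mem_powerset.2 ((filter_subset _ _).trans hA1))
    have h2 : A1.card = (A1.filter (fun a => ∃ b ∈ T, R a b)).card +
        (A1.filter (fun a => ¬ ∃ b ∈ T, R a b)).card :=
      (card_filter_add_card_filter_not (fun a => ∃ b ∈ T, R a b)).symm
    have h3 : T.card + (univ.filter (fun b => ¬ ∃ a ∈ A1, R a b)).card ≤
        (univ.filter (fun b => ¬ ∃ a ∈ A1.filter (fun a => ¬ ∃ b ∈ T, R a b), R a b)).card := by
      rw [← card_union_of_disjoint]
      · apply card_le_card
        intro b hb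
        rw [mem_union] at hb
        rw [mem_filter]
        refine ⟨mem_univ _, ?_⟩
        rintro ⟨a, ha, hab⟩
        rw [mem_filter] at ha
        rcases hb with hb | hb
        · exact ha.2 ⟨b, hb, hab⟩
        · exact (mem_filter.1 hb).2 ⟨a, ha.1, hab⟩
      · rw [disjoint_left]
        intro b hb hb'
        exact (mem_filter.1 hb').2 (hT b hb)
    have h4 : (A1.filter (fun a => ∃ b ∈ T, R a b)).card ≤
        (univ.filter (fun a => a ∈ A1 ∧ ∃ b ∈ T, R a b)).card := by
      apply card_le_card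
      intro a ha
      rw [mem_filter] at ha ⊢
      exact ⟨mem_univ _, ha⟩
    omega
  · intro S hS hdis
    have h1 := hmax (A1 ∪ S) (mem_powerset.2 (union_subset hA1 hS))
    rw [card_union_of_disjoint hdis] at h1
    have h2 : (univ.filter (fun b => ¬ ∃ a ∈ A1, R a b)).card ≤
        (univ.filter (fun b => ¬ ∃ a ∈ A1 ∪ S, R a b)).card +
        (univ.filter (fun b => (¬ ∃ a ∈ A1, R a b) ∧ ∃ a ∈ S, R a b)).card := by
      refine le_trans (card_le_card ?_) (card_union_le _ _)
      intro b hb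
      rw [mem_filter] at hb
      rw [mem_union, mem_filter, mem_filter]
      by_cases hc : ∃ a ∈ S, R a b
      · exact Or.inr ⟨mem_univ _, hb.2, hc⟩
      · left
        refine ⟨mem_univ _, ?_⟩
        rintro ⟨a, ha, hab⟩
        rcases mem_union.1 ha with ha | ha
        · exact hb.2 ⟨a, ha, hab⟩
        · exact hc ⟨a, ha, hab⟩
    omega

end Pool.Agent.N410.TB
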