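import Mathlib
import Pool.Agent.R61.TotBip2
import Pool.Agent.N410.TB.Match

/-!
# Bipartite graphs with a matching that is split into a top part and a bottom part
-/

set_option autoImplicit false

namespace Pool.Agent.N410.TB

open Finset Pool.Agent.TH559.LE Pool.Agent.R61.TotExt

open Classical in
/-- List colourings of the edges when no edge joins a vertex of `X` in `T` to a vertex outside
`T`: the edges `ab` with `T a ↔ T b` need `Δ` colours, the other edges need `Δ - 1` colours, if
there is a matching `N` of edges of the former kind that covers all vertices of degree `Δ`. -/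
theorem list_two {V : Type} [Fintype V] (G0 : SimpleGraph V) (X T : V → Prop)
    (hX : ∀ u v, G0.Adj u v → (X u ↔ ¬ X v)) (Δ : ℕ) (hΔ : 1 ≤ Δ)
    (hno : ∀ a b, X a → T a → G0.Adj a b → T b)
    (N : V → V → Prop) (hN : ∀ a b, N a b → X a ∧ G0.Adj a b ∧ (T a ↔ T b))
    (hN1 : ∀ a b b', N a b → N a b' → b = b') (hN2 : ∀ a a' b, N a b → N a' b → a = a')
    (hdeg : ∀ v, dg G0 v ≤ Δ)
    (hc1 : ∀ a, X a → dg G0 a = Δ → ∃ b, N a b) (hc2 : ∀ b, ¬ X b → dg G0 b = Δ → ∃ a, N a b)
    (L : Sym2 V → Finset ℕ) (hL1 : ∀ u v, G0.Adj u v → Δ - 1 ≤ (L s(u, v)).card)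
    (hL2 : ∀ a b, X a → G0.Adj a b → (T a ↔ T b) → Δ ≤ (L s(a, b)).card) :
    ∃ c, Ok G0 L c := by
  set E1 : Finset (V × V) := univ.filter (fun e => X e.1 ∧ G0.Adj e.1 e.2 ∧ ¬ N e.1 e.2) with hE1
  obtain ⟨c1, hk1, hk2⟩ := K1 E1 (Δ - 1) (by
    intro u
    by_cases hu : X u
    · have e1 : (E1.filter (fun e => e.1 = u)).card ≤
          (univ.filter (fun w => G0.Adj u w ∧ ¬ N u w)).card := by
        refine card_le_card_of_injOn (fun e => e.2) ?_ ?_
        · intro e he
          have he' := mem_filter.1 (mem_coe.1 he)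
          rw [hE1, mem_filter] at he'
          rw [mem_coe, mem_filter]
          obtain ⟨⟨_, _, h1⟩, h2⟩ := he'
          rw [← h2]
          exact ⟨mem_univ _, h1⟩
        · intro e he f hf hef
          have he' := mem_filter.1 (mem_coe.1 he)
          have hf' := mem_filter.1 (mem_coe.1 hf)
          exact Prod.ext (he'.2.trans hf'.2.symm) hef
      by_cases hd : dg G0 u = Δ
      · obtain ⟨b, hb⟩ := hc1 u hu hd
        have e2 : (univ.filter (fun w => G0.Adj u w ∧ ¬ N u w)).card <
            (univ.filter (fun w => G0.Adj u w)).card := by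
          apply card_lt_card
          refine ⟨?_, ?_⟩
          · intro w hw
            rw [mem_filter] at hw ⊢
            exact ⟨mem_univ _, hw.2.1⟩
          · intro hsub
            have := hsub (mem_filter.2 ⟨mem_univ b, (hN u b hb).2.1⟩)
            exact (mem_filter.1 this).2.2 hb
        rw [← dg_eq] at e2
        omega
      · have e2 : (univ.filter (fun w => G0.Adj u w ∧ ¬ N u w)).card ≤
            (univ.filter (fun w => G0.Adj u w)).card := by
          apply card_le_card
          intro w hw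
          rw [mem_filter] at hw ⊢
          exact ⟨mem_univ _, hw.2.1⟩
        rw [← dg_eq] at e2
        have := hdeg u
        omega
    · have : E1.filter (fun e => e.1 = u) = ∅ := by
        rw [filter_eq_empty_iff]
        intro e he heq
        rw [hE1, mem_filter] at he
        rw [heq] at he
        exact hu he.2.1
      rw [this]
      simp) (by
    intro u
    by_cases hu : X u
    · have : E1.filter (fun e => e.2 = u) = ∅ := by
        rw [filter_eq_empty_iff]
        intro e he heq
        rw [hE1, mem_filter] at he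
        rw [heq] at he
        exact (hX _ _ he.2.2.1).1 he.2.1 hu
      rw [this]
      simp
    · have e1 : (E1.filter (fun e => e.2 = u)).card ≤
          (univ.filter (fun w => G0.Adj u w ∧ ¬ N w u)).card := by
        refine card_le_card_of_injOn (fun e => e.1) ?_ ?_
        · intro e he
          have he' := mem_filter.1 (mem_coe.1 he)
          rw [hE1, mem_filter] at he'
          rw [mem_coe, mem_filter]
          obtain ⟨⟨_, _, h1⟩, h2⟩ := he'
          rw [← h2]
          exact ⟨mem_univ _, h1.1.symm, h1.2⟩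
        · intro e he f hf hef
          have he' := mem_filter.1 (mem_coe.1 he)
          have hf' := mem_filter.1 (mem_coe.1 hf)
          exact Prod.ext hef (he'.2.trans hf'.2.symm)
      by_cases hd : dg G0 u = Δ
      · obtain ⟨b, hb⟩ := hc2 u hu hd
        have e2 : (univ.filter (fun w => G0.Adj u w ∧ ¬ N w u)).card <
            (univ.filter (fun w => G0.Adj u w)).card := by
          apply card_lt_card
          refine ⟨?_, ?_⟩
          · intro w hw
            rw [mem_filter] at hw ⊢
            exact ⟨mem_univ _, hw.2.1⟩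
          · intro hsub
            have := hsub (mem_filter.2 ⟨mem_univ b, (hN b u hb).2.1.symm⟩)
            exact (mem_filter.1 this).2.2 hb
        rw [← dg_eq] at e2
        omega
      · have e2 : (univ.filter (fun w => G0.Adj u w ∧ ¬ N w u)).card ≤
            (univ.filter (fun w => G0.Adj u w)).card := by
          apply card_le_card
          intro w hw
          rw [mem_filter] at hw ⊢
          exact ⟨mem_univ _, hw.2.1⟩
        rw [← dg_eq] at e2
        have := hdeg u
        omega)
  set E : Finset (V × V) := univ.filter (fun e => X e.1 ∧ G0.Adj e.1 e.2) with hE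
  have hEm : ∀ e, e ∈ E ↔ X e.1 ∧ G0.Adj e.1 e.2 := by
    intro e
    simp [hE]
  have hE1m : ∀ e, e ∈ E → ¬ N e.1 e.2 → e ∈ E1 := by
    intro e he hM
    rw [hE1, mem_filter]
    exact ⟨mem_univ _, ((hEm e).1 he).1, ((hEm e).1 he).2, hM⟩
  set c : V × V → ℕ := fun e => if N e.1 e.2 then (if T e.1 then Δ else 0) else c1 e + 1 with hc
  have hcT : ∀ e, N e.1 e.2 → T e.1 → c e = Δ := fun e h h' => by
    simp only [hc]; rw [if_pos h, if_pos h']
  have hcB : ∀ e, N e.1 e.2 → ¬ T e.1 → c e = 0 := fun e h h' => by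
    simp only [hc]; rw [if_pos h, if_neg h']
  have hcN : ∀ e, ¬ N e.1 e.2 → c e = c1 e + 1 := fun e h => by simp only [hc]; rw [if_neg h]
  have hmid : ∀ e ∈ E, ¬ N e.1 e.2 → 1 ≤ c e ∧ c e + 1 ≤ Δ := by
    intro e he hM
    rw [hcN e hM]
    have := hk1 e (hE1m e he hM)
    omega
  -- bounds for the labels
  have hhi1 : ∀ e ∈ E, c e ≤ if T e.1 then Δ else Δ - 1 := by
    intro e he
    by_cases hM : N e.1 e.2
    · by_cases hT : T e.1
      · rw [hcT e hM hT, if_pos hT]
      · rw [hcB e hM hT]
        exact Nat.zero_le _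
    · have := hmid e he hM
      split_ifs <;> omega
  have hlo2 : ∀ e ∈ E, (if T e.2 then 1 else 0) ≤ c e := by
    intro e he
    by_cases hM : N e.1 e.2
    · by_cases hT : T e.2
      · rw [hcT e hM ((hN _ _ hM).2.2.2 hT), if_pos hT]
        exact hΔ
      · rw [if_neg hT]
        exact Nat.zero_le _
    · have := hmid e he hM
      split_ifs <;> omega
  have hinj : ∀ e ∈ E, ∀ f ∈ E, e.1 = f.1 ∨ e.2 = f.2 → c e = c f → e = f := by
    intro e he f hf hor heq
    by_cases hMe : N e.1 e.2
    · by_cases hMf : N f.1 f.2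
      · rcases hor with h | h
        · rw [← h] at hMf
          exact Prod.ext h (hN1 e.1 e.2 f.2 hMe hMf)
        · rw [← h] at hMf
          exact Prod.ext (hN2 e.1 f.1 e.2 hMe hMf) h
      · have h1 := hmid f hf hMf
        by_cases hT : T e.1
        · have h2 := hcT e hMe hT
          omega
        · have h2 := hcB e hMe hT
          omega
    · by_cases hMf : N f.1 f.2
      · have h1 := hmid e he hMe
        by_cases hT : T f.1
        · have h2 := hcT f hMf hT
          omega
        · have h2 := hcB f hMf hT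
          omega
      · by_contra hne
        exact hk2 e (hE1m e he hMe) f (hE1m f hf hMf) hne hor (by
          have h1 := hcN e hMe
          have h2 := hcN f hMf
          omega)
  obtain ⟨φ, hφ⟩ := from_ranks E c hinj (fun e => L s(e.1, e.2)) (by
    intro e he
    have hlow : (E.filter (fun f => f.2 = e.2 ∧ c f < c e)).card ≤
        c e - (if T e.2 then 1 else 0) := by
      calc (E.filter (fun f => f.2 = e.2 ∧ c f < c e)).card ≤
          (Ico (if T e.2 then 1 else 0) (c e)).card := by
            refine card_le_card_of_injOn c ?_ ?_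
            · intro f hf
              have hf' := mem_filter.1 (mem_coe.1 hf)
              have h1 := hlo2 f hf'.1
              rw [hf'.2.1] at h1
              exact mem_coe.2 (mem_Ico.2 ⟨h1, hf'.2.2⟩)
            · intro f hf g hg hfg
              have hf' := mem_filter.1 (mem_coe.1 hf)
              have hg' := mem_filter.1 (mem_coe.1 hg)
              exact hinj f hf'.1 g hg'.1 (Or.inr (hf'.2.1.trans hg'.2.1.symm)) hfg
        _ = _ := Nat.card_Ico _ _
    have hhigh : (E.filter (fun f => f.1 = e.1 ∧ c e < c f)).card ≤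
        (if T e.1 then Δ else Δ - 1) - c e := by
      calc (E.filter (fun f => f.1 = e.1 ∧ c e < c f)).card ≤
          (Ioc (c e) (if T e.1 then Δ else Δ - 1)).card := by
            refine card_le_card_of_injOn c ?_ ?_
            · intro f hf
              have hf' := mem_filter.1 (mem_coe.1 hf)
              have h1 := hhi1 f hf'.1
              rw [hf'.2.1] at h1
              exact mem_coe.2 (mem_Ioc.2 ⟨hf'.2.2, h1⟩)
            · intro f hf g hg hfg
              have hf' := mem_filter.1 (mem_coe.1 hf)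
              have hg' := mem_filter.1 (mem_coe.1 hg)
              exact hinj f hf'.1 g hg'.1 (Or.inl (hf'.2.1.trans hg'.2.1.symm)) hfg
        _ = _ := Nat.card_Ioc _ _
    have hc3 := hhi1 e he
    have hc4 := hlo2 e he
    have hXe := ((hEm e).1 he).1
    have hGe := ((hEm e).1 he).2
    show _ < (L s(e.1, e.2)).card
    by_cases hT1 : T e.1
    · have hT2 := hno e.1 e.2 hXe hT1 hGe
      have h5 := hL2 e.1 e.2 hXe hGe ⟨fun _ => hT2, fun _ => hT1⟩
      rw [if_pos hT1] at hhigh hc3
      rw [if_pos hT2] at hlow hc4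
      omega
    · rw [if_neg hT1] at hhigh hc3
      by_cases hT2 : T e.2
      · have h5 := hL1 e.1 e.2 hGe
        rw [if_pos hT2] at hlow hc4
        omega
      · have h5 := hL2 e.1 e.2 hXe hGe ⟨fun h => absurd h hT1, fun h => absurd h hT2⟩
        rw [if_neg hT2] at hlow hc4
        omega)
  refine of_pairs G0 X hX L φ ?_ ?_ ?_
  · intro x y hx hxy
    exact (hφ (x, y) ((hEm (x, y)).2 ⟨hx, hxy⟩)).1
  · intro x y y' hx hxy hxy' hne
    exact (hφ (x, y') ((hEm (x, y')).2 ⟨hx, hxy'⟩)).2 (x, y) ((hEm (x, y)).2 ⟨hx, hxy⟩)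
      (fun h => hne (congrArg Prod.snd h)) (Or.inl rfl)
  · intro x x' y hx hx' hxy hxy' hne
    exact (hφ (x', y) ((hEm (x', y)).2 ⟨hx', hxy'⟩)).2 (x, y) ((hEm (x, y)).2 ⟨hx, hxy⟩)
      (fun h => hne (congrArg Prod.fst h)) (Or.inr rfl)

open Classical in
/-- The partition and the matching. -/
theorem part {V : Type} [Fintype V] (G H : SimpleGraph V) (X : V → Prop)
    (hX : ∀ u v, G.Adj u v → (X u ↔ ¬ X v)) (Δ : ℕ) (hΔ1 : 1 ≤ Δ) (hΔ : ∀ v, dg G v ≤ Δ)
    (hHG : H ≤ G) :
    ∃ (T : V → Prop) (N : V → V → Prop),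
      (∀ a, X a → (∃ x, H.Adj a x) → ¬ T a) ∧ (∀ b, ¬ X b → (∃ x, H.Adj b x) → T b) ∧
      (∀ a b, X a → T a → G.Adj a b → T b) ∧
      (∀ a b, N a b → X a ∧ (G \ H).Adj a b ∧ (T a ↔ T b)) ∧
      (∀ a b b', N a b → N a b' → b = b') ∧ (∀ a a' b, N a b → N a' b → a = a') ∧
      (∀ a, X a → dg (G \ H) a = Δ → ∃ b, N a b) ∧
      (∀ b, ¬ X b → dg (G \ H) b = Δ → ∃ a, N a b) := by
  -- vertices covered by `H`
  set D : V → Prop := fun v => ∃ x, H.Adj v x with hD
  have hDdeg : ∀ v, D v → dg (G \ H) v ≠ Δ := by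
    rintro v ⟨x, hx⟩ heq
    have h1 : dg (G \ H) v < dg G v := dg_lt sdiff_le (hHG hx) (fun h => h.2 hx)
    have h2 := hΔ v
    omega
  set R : V → V → Prop := fun a b => G.Adj a b ∧ ¬ D b with hR
  obtain ⟨A1, hA1, hP1, hP2⟩ := dm R (univ.filter (fun a => X a ∧ ¬ D a))
  have hA1' : ∀ a ∈ A1, X a ∧ ¬ D a := fun a ha => (mem_filter.1 (hA1 ha)).2
  set T : V → Prop := fun v => if X v then v ∈ A1 else (D v ∨ ∃ a ∈ A1, R a v) with hT
  have hTX : ∀ v, X v → (T v ↔ v ∈ A1) := fun v hv => by simp only [hT]; rw [if_pos hv]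
  have hTY : ∀ v, ¬ X v → (T v ↔ (D v ∨ ∃ a ∈ A1, R a v)) := fun v hv => by
    simp only [hT]; rw [if_neg hv]
  have hno : ∀ a b, X a → T a → G.Adj a b → T b := by
    intro a b ha hTa hab
    have hb : ¬ X b := (hX a b hab).1 ha
    rw [hTY b hb]
    rw [hTX a ha] at hTa
    by_cases hDb : D b
    · exact Or.inl hDb
    · exact Or.inr ⟨a, hTa, hab, hDb⟩
  -- the degrees of the vertices of degree `Δ` in `G \ H`
  have hdge : ∀ v, dg (G \ H) v = (univ.filter (fun w => (G \ H).Adj v w)).card := by
    intro v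
    rw [dg_eq]
  have hdgle : ∀ v, (univ.filter (fun w => (G \ H).Adj v w)).card ≤ Δ := by
    intro v
    rw [← hdge]
    exact le_trans (dg_mono sdiff_le v) (hΔ v)
  -- the top matching
  obtain ⟨N1, a1, a2, a3, a4, a5⟩ := both (fun a b => X a ∧ (G \ H).Adj a b ∧ T a)
    (univ.filter (fun a => X a ∧ T a ∧ dg (G \ H) a = Δ))
    (univ.filter (fun b => ¬ X b ∧ T b ∧ ¬ D b)) (by
      intro S hS
      refine degs _ Δ hΔ1 S ?_ ?_
      · intro p hp
        obtain ⟨_, h1, h2, h3⟩ := mem_filter.1 (hS hp)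
        rw [hdge] at h3
        refine le_trans (le_of_eq h3.symm) (card_le_card ?_)
        intro w hw
        simp only [mem_filter, mem_univ, true_and] at hw ⊢
        exact ⟨h1, hw, h2⟩
      · intro q
        refine le_trans (card_le_card ?_) (hdgle q)
        intro w hw
        simp only [mem_filter, mem_univ, true_and] at hw ⊢
        exact hw.2.1.symm) (by
      intro S hS
      have h1 := hP1 S (by
        intro b hb
        obtain ⟨_, h1, h2, h3⟩ := mem_filter.1 (hS hb)
        exact ((hTY b h1).1 h2).resolve_left h3)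
      refine h1.trans (card_le_card ?_)
      intro a ha
      simp only [mem_filter, mem_univ, true_and] at ha ⊢
      obtain ⟨h2, b, hb, hab⟩ := ha
      refine ⟨b, hb, (hA1' a h2).1, ⟨hab.1, ?_⟩, ?_⟩
      · intro h
        exact (hA1' a h2).2 ⟨b, h⟩
      · rw [hTX a (hA1' a h2).1]
        exact h2)
  -- the bottom matching
  obtain ⟨N2, b1, b2, b3, b4, b5⟩ := both (fun a b => X a ∧ (G \ H).Adj a b ∧ ¬ T b)
    (univ.filter (fun a => X a ∧ ¬ T a ∧ ¬ D a))
    (univ.filter (fun b => ¬ X b ∧ ¬ T b ∧ dg (G \ H) b = Δ)) (by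
      intro S hS
      have h1 := hP2 S (by
        intro a ha
        obtain ⟨_, h1, h2, h3⟩ := mem_filter.1 (hS ha)
        exact mem_filter.2 ⟨mem_univ _, h1, h3⟩) (by
        rw [disjoint_left]
        intro a ha ha'
        obtain ⟨_, h1, h2, h3⟩ := mem_filter.1 (hS ha')
        rw [hTX a h1] at h2
        exact h2 ha)
      refine h1.trans (card_le_card ?_)
      intro b hb
      simp only [mem_filter, mem_univ, true_and] at hb ⊢
      obtain ⟨h2, a, ha, hab⟩ := hb
      obtain ⟨_, h3, h4, h5⟩ := mem_filter.1 (hS ha)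
      refine ⟨a, ha, h3, ⟨hab.1, ?_⟩, ?_⟩
      · intro h
        exact h5 ⟨b, h⟩
      · have h6 : ¬ X b := (hX a b hab.1).1 h3
        rw [hTY b h6]
        rintro (h | h)
        · exact hab.2 h
        · exact h2 h) (by
      intro S hS
      refine degs (fun b a => X a ∧ (G \ H).Adj a b ∧ ¬ T b) Δ hΔ1 S ?_ ?_
      · intro p hp
        obtain ⟨_, h1, h2, h3⟩ := mem_filter.1 (hS hp)
        rw [hdge] at h3
        refine le_trans (le_of_eq h3.symm) (card_le_card ?_)
        intro w hw
        simp only [mem_filter, mem_univ, true_and] at hw ⊢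
        refine ⟨?_, hw.symm, h2⟩
        by_contra hXw
        exact h1 ((hX p w hw.1).2 hXw)
      · intro q
        refine le_trans (card_le_card ?_) (hdgle q)
        intro w hw
        simp only [mem_filter, mem_univ, true_and] at hw ⊢
        exact hw.2.1)
  have c1 : ∀ a b, N1 a b → X a ∧ (G \ H).Adj a b ∧ T a ∧ T b := by
    intro a b h
    obtain ⟨h1, h2, h3⟩ := a1 a b h
    exact ⟨h1, h2, h3, hno a b h1 h3 h2.1⟩
  have c2 : ∀ a b, N2 a b → X a ∧ (G \ H).Adj a b ∧ ¬ T a ∧ ¬ T b := by
    intro a b h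
    obtain ⟨h1, h2, h3⟩ := b1 a b h
    exact ⟨h1, h2, fun h4 => h3 (hno a b h1 h4 h2.1), h3⟩
  refine ⟨T, fun a b => N1 a b ∨ N2 a b, ?_, ?_, hno, ?_, ?_, ?_, ?_, ?_⟩
  · intro a ha hDa hTa
    rw [hTX a ha] at hTa
    exact (hA1' a hTa).2 hDa
  · intro b hb hDb
    rw [hTY b hb]
    exact Or.inl hDb
  · rintro a b (h | h)
    · obtain ⟨h1, h2, h3, h4⟩ := c1 a b h
      exact ⟨h1, h2, fun _ => h4, fun _ => h3⟩
    · obtain ⟨h1, h2, h3, h4⟩ := c2 a b h
      exact ⟨h1, h2, fun h => absurd h h3, fun h => absurd h h4⟩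
  · rintro a b b' (h | h) (h' | h')
    · exact a2 a b b' h h'
    · exact absurd (c1 a b h).2.2.1 (c2 a b' h').2.2.1
    · exact absurd (c1 a b' h').2.2.1 (c2 a b h).2.2.1
    · exact b2 a b b' h h'
  · rintro a a' b (h | h) (h' | h')
    · exact a3 a a' b h h'
    · exact absurd (c1 a b h).2.2.2 (c2 a' b h').2.2.2
    · exact absurd (c1 a' b h').2.2.2 (c2 a b h).2.2.2
    · exact b3 a a' b h h'
  · intro a ha hd
    by_cases hTa : T a
    · obtain ⟨q, hq⟩ := a4 a (mem_filter.2 ⟨mem_univ _, ha, hTa, hd⟩)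
      exact ⟨q, Or.inl hq⟩
    · obtain ⟨q, hq⟩ := b4 a (mem_filter.2 ⟨mem_univ _, ha, hTa, fun h => hDdeg a h hd⟩)
      exact ⟨q, Or.inr hq⟩
  · intro b hb hd
    by_cases hTb : T b
    · obtain ⟨q, hq⟩ := a5 b (mem_filter.2 ⟨mem_univ _, hb, hTb, fun h => hDdeg b h hd⟩)
      exact ⟨q, Or.inl hq⟩
    · obtain ⟨q, hq⟩ := b5 b (mem_filter.2 ⟨mem_univ _, hb, hTb, hd⟩)
      exact ⟨q, Or.inr hq⟩

end Pool.Agent.N410.TB
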