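import Mathlib
import Pool.Agent.N410.TB.Two

/-!
# Extending total colourings of distance-3 matchings in bipartite graphs
-/

set_option autoImplicit false

namespace Pool.Agent.N410.TB

open Finset Pool.Agent.TH559.LE Pool.Agent.R61.TotExt

/-- Extension in bipartite graphs. -/
theorem ext_bip {V : Type} [Fintype V] (G H : SimpleGraph V) (Δ : ℕ) (X : V → Prop)
    (hX : ∀ u v, G.Adj u v → (X u ↔ ¬ X v))
    (hΔ : ∀ v, (G.neighborSet v).ncard ≤ Δ) (hHG : H ≤ G)
    (hmatch : ∀ u v w, H.Adj u v → H.Adj u w → v = w)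
    (hdist : ∀ u v x y, H.Adj u v → H.Adj x y → s(u, v) ≠ s(x, y) → 3 ≤ G.edist u x)
    (f0 : V → Fin (Δ + 2)) (g0 : Sym2 V → Fin (Δ + 2)) (h0 : IsTotal H f0 g0) :
    ∃ (f : V → Fin (Δ + 2)) (g : Sym2 V → Fin (Δ + 2)), IsTotal G f g ∧
      ∀ u v, H.Adj u v → f u = f0 u ∧ g s(u, v) = g0 s(u, v) := by
  classical
  have hΔ' : ∀ v, dg G v ≤ Δ := hΔ
  -- covered vertices that are adjacent form an edge of the matching
  have hA : ∀ u v, G.Adj u v → (∃ x, H.Adj u x) → (∃ y, H.Adj v y) → H.Adj u v := by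
    rintro u v huv ⟨x, hx⟩ ⟨y, hy⟩
    by_contra hn
    have hne : s(u, x) ≠ s(v, y) := by
      intro h
      rw [Sym2.eq_iff] at h
      rcases h with ⟨h1, h2⟩ | ⟨h1, h2⟩
      · exact huv.ne h1
      · subst h2
        exact hn hx
    have h3 := hdist u x v y hx hy hne
    have h4 : G.edist u v ≤ 1 := by
      have := SimpleGraph.edist_le (SimpleGraph.Walk.cons huv SimpleGraph.Walk.nil)
      simpa using this
    have h5 : (3 : ℕ∞) ≤ 1 := h3.trans h4
    exact absurd h5 (by decide)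
  have hB : ∀ v w z w' z', G.Adj v w → H.Adj w z → G.Adj v w' → H.Adj w' z' →
      s(w, z) = s(w', z') := by
    intro v w z w' z' hvw hwz hvw' hwz'
    by_contra hne
    have h3 := hdist w z w' z' hwz hwz' hne
    have h4 : G.edist w w' ≤ 2 := by
      have := SimpleGraph.edist_le (SimpleGraph.Walk.cons hvw.symm
        (SimpleGraph.Walk.cons hvw' SimpleGraph.Walk.nil))
      simpa using this
    have h5 : (3 : ℕ∞) ≤ 2 := h3.trans h4
    exact absurd h5 (by decide)
  rcases Nat.eq_zero_or_pos Δ with hΔ0 | hΔ0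
  · -- there are no edges
    have hno : ∀ u v, ¬ G.Adj u v := by
      intro u v huv
      have h1 := hΔ' u
      have h2 : 0 < dg G u := by
        rw [dg_eq]
        exact card_pos.2 ⟨v, by simpa using huv⟩
      omega
    exact ⟨f0, g0, ⟨fun u v h => absurd h (hno u v), fun u v w h => absurd h (hno u v),
      fun u v h => absurd h (hno u v)⟩, fun u v h => absurd (hHG h) (hno u v)⟩
  obtain ⟨T, N, hTU, hTV, hno, hN, hN1, hN2, hc1, hc2⟩ := part G H X hX Δ hΔ0 hΔ' hHG
  -- the colour of the edge of the matching near a vertex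
  set cc : V → Fin (Δ + 2) := fun v =>
    if h : ∃ e : V × V, G.Adj v e.1 ∧ H.Adj e.1 e.2 then
      g0 s((Classical.choose h).1, (Classical.choose h).2) else f0 v with hcc
  have hccv : ∀ v w z, G.Adj v w → H.Adj w z → cc v = g0 s(w, z) := by
    intro v w z hvw hwz
    have hex : ∃ e : V × V, G.Adj v e.1 ∧ H.Adj e.1 e.2 := ⟨(w, z), hvw, hwz⟩
    simp only [hcc]
    rw [dif_pos hex]
    obtain ⟨h1, h2⟩ := Classical.choose_spec hex
    rw [hB v _ _ w z h1 h2 hvw hwz]
  set D' : V → Prop := fun v => (∃ x, H.Adj v x) ∨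
    ((∃ w, G.Adj v w ∧ ∃ z, H.Adj w z) ∧ (X v ↔ T v)) with hD'
  set f1 : V → Fin (Δ + 2) := fun v => if ∃ x, H.Adj v x then f0 v else cc v with hf1
  have hf1D : ∀ v, (∃ x, H.Adj v x) → f1 v = f0 v := by
    intro v hv
    simp only [hf1]
    rw [if_pos hv]
  have hf1N : ∀ v, ¬ (∃ x, H.Adj v x) → f1 v = cc v := by
    intro v hv
    simp only [hf1]
    rw [if_neg hv]
  have hone : ∀ u v, G.Adj u v → (∃ x, H.Adj u x) → ¬ (∃ x, H.Adj v x) → f1 u ≠ f1 v := by
    rintro u v huv ⟨x, hx⟩ hv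
    rw [hf1D u ⟨x, hx⟩, hf1N v hv, hccv v u x huv.symm hx]
    exact (h0.2.2 u x hx).symm
  have hprop : ∀ u v, D' u → D' v → G.Adj u v → f1 u ≠ f1 v := by
    intro u v hu hv huv
    by_cases hDu : ∃ x, H.Adj u x
    · by_cases hDv : ∃ x, H.Adj v x
      · rw [hf1D u hDu, hf1D v hDv]
        exact h0.1 u v (hA u v huv hDu hDv)
      · exact hone u v huv hDu hDv
    · by_cases hDv : ∃ x, H.Adj v x
      · exact (hone v u huv.symm hDv hDu).symm
      · exfalso
        have h1 := (hu.resolve_left hDu).2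
        have h2 := (hv.resolve_left hDv).2
        have h3 := hX u v huv
        by_cases hXu : X u
        · have h4 := hno u v hXu (h1.1 hXu) huv
          exact h3.1 hXu (h2.2 h4)
        · have hXv : X v := by
            by_contra hXv
            exact hXu (h3.2 hXv)
          have h4 := hno v u hXv (h2.1 hXv) huv.symm
          exact hXu (h1.2 h4)
  obtain ⟨f, hfD, hfG⟩ := vext G f1 D' hprop (fun v => by have := hΔ' v; omega)
  have hff0 : ∀ v, (∃ x, H.Adj v x) → f v = f0 v := by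
    intro v hv
    rw [hfD v (Or.inl hv), hf1D v hv]
  refine core G H hHG hmatch f0 g0 h0 (fun u v hu hv huv => h0.1 u v (hA u v huv hu hv)) f hff0
    hfG ?_
  intro L hL
  have hLc : ∀ u v, (G \ H).Adj u v → Δ + 2 ≤ (L s(u, v)).card + 2 +
      (if ∃ x, H.Adj u x then 1 else 0) + (if ∃ x, H.Adj v x then 1 else 0) :=
    fun u v huv => lcard H hmatch f g0 (L s(u, v)) u v (hL u v huv)
  refine list_two (G \ H) X T (fun u v huv => hX u v huv.1) Δ hΔ0
    (fun a b ha hTa hab => hno a b ha hTa hab.1) N hN hN1 hN2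
    (fun v => le_trans (dg_mono sdiff_le v) (hΔ' v)) hc1 hc2 L ?_ ?_
  · intro u v huv
    have h1 := hLc u v huv
    by_cases hu : ∃ x, H.Adj u x
    · have hv : ¬ ∃ x, H.Adj v x := fun hv => huv.2 (hA u v huv.1 hu hv)
      rw [if_pos hu, if_neg hv] at h1
      omega
    · rw [if_neg hu] at h1
      split_ifs at h1 <;> omega
  · intro x y hXx hxy hTxy
    have hXy : ¬ X y := (hX x y hxy.1).1 hXx
    by_cases hx : ∃ z, H.Adj x z
    · have hy : ¬ ∃ z, H.Adj y z := fun hy => hxy.2 (hA x y hxy.1 hx hy)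
      have hTx : ¬ T x := hTU x hXx hx
      obtain ⟨z, hz⟩ := hx
      have h1 : f y = g0 s(x, z) := by
        rw [hfD y (Or.inr ⟨⟨x, hxy.1.symm, z, hz⟩, fun h => absurd h hXy,
          fun h => absurd (hTxy.2 h) hTx⟩), hf1N y hy, hccv y x z hxy.1.symm hz]
      have h2 := lcard2 H hmatch f g0 (L s(x, y)) x y z hz (fun w hw => hy ⟨w, hw⟩) h1
        (hL x y hxy)
      omega
    · by_cases hy : ∃ z, H.Adj y z
      · have hTy : T y := hTV y hXy hy
        obtain ⟨z, hz⟩ := hy
        have h1 : f x = g0 s(y, z) := by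
          rw [hfD x (Or.inr ⟨⟨y, hxy.1, z, hz⟩, fun _ => hTxy.2 hTy, fun _ => hXx⟩), hf1N x hx,
            hccv x y z hxy.1 hz]
        have h2 := lcard2 H hmatch f g0 (L s(y, x)) y x z hz (fun w hw => hx ⟨w, hw⟩) h1
          (hL y x hxy.symm)
        rw [Sym2.eq_swap] at h2
        omega
      · have h1 := hLc x y hxy
        rw [if_neg hx, if_neg hy] at h1
        omega

end Pool.Agent.N410.TB
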